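import Mathlib
import Pool.Agent.W121.Equi

/-!
An equistable (even strongly equistable) graph that is not weakly CIS: the complement of the line
graph of the circulant graph `C_11(1,3)`.
-/

set_option autoImplicit false

namespace Pool.Agent.Results.MP_59918e_co.NotWeaklyCIS

open Pool.Agent.W121.Equi

/-- There is a finite simple graph, on 22 vertices, that is equistable and even strongly
equistable, but not weakly CIS. -/
theorem result :
    ∃ G : SimpleGraph (Fin 22), Equistable G ∧ StronglyEquistable G ∧ ¬ WeaklyCIS G :=
  ⟨G, equistable, stronglyEquistable, not_weaklyCIS⟩

end Pool.Agent.Results.MP_59918e_co.NotWeaklyCIS
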